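import Pool.Agent.H28.GS2.Alg
import Pool.Agent.H6.GS2.Targets

/-!
# Theorem (G), section 2 (MP_c59857_nt): optimal sums exist
-/

set_option autoImplicit false

namespace Pool.Agent.H28.GS2

open Finset Pool.Agent.H6.N4D Pool.Agent.H93.GS

lemma ee_fract (a : ℝ) (m : ℕ) : ee (Int.fract a * m) = ee (a * m) := by
  have h : a * m = Int.fract a * m + ((⌊a⌋ * m : ℤ) : ℝ) := by
    rw [Int.fract]
    push_cast
    ring
  rw [h, ee_add, ee_int, mul_one]

/-- reduction to few terms (theorem of Caratheodory) -/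
lemma few_terms (S : Finset ℕ) (g : Ex) : ∃ (c : Fin (2 * S.card + 1) → ℂ)
    (a : Fin (2 * S.card + 1) → ℝ), (∀ j, 0 ≤ a j ∧ a j ≤ 1) ∧
    (∀ m ∈ S, ∑ j, c j * ee (a j * m) = g.f m) ∧ ∑ j, ‖c j‖ = g.nm := by
  classical
  rcases eq_or_lt_of_le (nm_nonneg g) with h0 | h0
  · refine ⟨fun _ => 0, fun _ => 0, fun _ => ⟨le_rfl, zero_le_one⟩, fun m _ => ?_, ?_⟩
    · have h1 : ∀ i ∈ range g.k, g.c i = 0 := by
        intro i hi
        have h2 := (sum_eq_zero_iff_of_nonneg (fun i _ => norm_nonneg (g.c i))).1 h0.symm i hi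
        exact norm_eq_zero.1 h2
      have h3 : g.f m = 0 := sum_eq_zero fun i hi => by rw [h1 i hi, zero_mul]
      rw [h3]
      simp
    · rw [← h0]
      simp
  · -- the point
    obtain ⟨A, hA⟩ : ∃ A : Set (S → ℂ), A = {x | ∃ (u : ℂ) (β : ℝ), ‖u‖ = 1 ∧
      x = fun m : S => u * ee (β * (m : ℕ))} := ⟨_, rfl⟩
    obtain ⟨u, hu⟩ : ∃ u : ℕ → ℂ, u = fun i => if g.c i = 0 then 1 else g.c i / ‖g.c i‖ := ⟨_, rfl⟩
    have hu1 : ∀ i, ‖u i‖ = 1 := by
      intro i
      rw [hu]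
      simp only
      split_ifs with h
      · simp
      · rw [norm_div, Complex.norm_real, norm_norm, div_self (norm_ne_zero_iff.2 h)]
    have hu2 : ∀ i, (‖g.c i‖ : ℂ) * u i = g.c i := by
      intro i
      rw [hu]
      simp only
      split_ifs with h
      · rw [h]; simp
      · rw [mul_div_cancel₀]
        exact_mod_cast norm_ne_zero_iff.2 h
    obtain ⟨x, hx⟩ : ∃ x : S → ℂ, x = ∑ i ∈ range g.k, (‖g.c i‖ / g.nm) •
      (fun m : S => u i * ee (g.a i * (m : ℕ))) := ⟨_, rfl⟩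
    have hxA : x ∈ convexHull ℝ A := by
      rw [hx]
      refine (convex_convexHull ℝ A).sum_mem (fun i _ => by positivity) ?_ fun i _ => ?_
      · rw [← sum_div]
        exact div_self h0.ne'
      · refine subset_convexHull ℝ A ?_
        rw [hA]
        exact ⟨u i, g.a i, hu1 i, rfl⟩
    have hxf : ∀ m : S, (g.nm : ℂ) * x m = g.f m := by
      intro m
      rw [hx, Finset.sum_apply, mul_sum]
      unfold Ex.f
      refine sum_congr rfl fun i _ => ?_
      rw [Pi.smul_apply, Complex.real_smul]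
      have h1 : (g.nm : ℂ) ≠ 0 := by exact_mod_cast h0.ne'
      push_cast
      calc (g.nm : ℂ) * ((‖g.c i‖ : ℂ) / g.nm * (u i * ee (g.a i * (m : ℕ)))) =
          ((‖g.c i‖ : ℂ) * u i) * ee (g.a i * (m : ℕ)) := by field_simp
        _ = _ := by rw [hu2]
    obtain ⟨ι, hι, z, w, hz, haff, hw, hw1, hwz⟩ := eq_pos_convex_span_of_mem_convexHull hxA
    have hcard : Fintype.card ι ≤ 2 * S.card + 1 := by
      have h1 := haff.card_le_finrank_succ
      have h2 : Module.finrank ℝ (vectorSpan ℝ (Set.range z)) ≤ Module.finrank ℝ (S → ℂ) :=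
        Submodule.finrank_le _
      have h3 : Module.finrank ℝ (S → ℂ) = 2 * S.card := by
        rw [Module.finrank_pi_fintype]
        simp [Complex.finrank_real_complex, mul_comm]
      omega
    have hz' : ∀ j, ∃ (v : ℂ) (β : ℝ), ‖v‖ = 1 ∧ z j = fun m : S => v * ee (β * (m : ℕ)) := by
      intro j
      have := hz ⟨j, rfl⟩
      rw [hA] at this
      exact this
    choose v β hv hzv using hz'
    obtain ⟨e⟩ : Nonempty (ι ↪ Fin (2 * S.card + 1)) :=
      Function.Embedding.nonempty_of_card_le (by simpa using hcard)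
    have hext : ∀ {M : Type} [AddCommMonoid M] (F : ℂ → ℝ → M), (∀ t, F 0 t = 0) →
        ∑ k, F (Function.extend e (fun j => (g.nm * w j : ℂ) * v j) 0 k)
          (Function.extend e (fun j => Int.fract (β j)) 0 k) =
        ∑ j, F ((g.nm * w j : ℂ) * v j) (Int.fract (β j)) := by
      intro M _ F hF
      symm
      refine Fintype.sum_of_injective e e.injective _ _ (fun k hk => ?_) fun j => ?_
      · rw [Function.extend_apply' _ _ _ (fun ⟨j, hj⟩ => hk ⟨j, hj⟩)]
        exact hF _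
      · rw [e.injective.extend_apply, e.injective.extend_apply]
    refine ⟨Function.extend e (fun j => (g.nm * w j : ℂ) * v j) 0,
      Function.extend e (fun j => Int.fract (β j)) 0, fun k => ?_, fun m hm => ?_, ?_⟩
    · by_cases hk : ∃ j, e j = k
      · obtain ⟨j, rfl⟩ := hk
        rw [e.injective.extend_apply]
        exact ⟨Int.fract_nonneg _, (Int.fract_lt_one _).le⟩
      · rw [Function.extend_apply' _ _ _ hk]
        simp
    · have h1 := hext (fun c a => c * ee (a * m)) (fun t => zero_mul _)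
      rw [h1, ← hxf ⟨m, hm⟩, ← hwz, Finset.sum_apply, mul_sum]
      refine sum_congr rfl fun j _ => ?_
      rw [Pi.smul_apply, Complex.real_smul, hzv, ee_fract]
      ring
    · have h1 := hext (fun c _ => ‖c‖) (fun t => norm_zero)
      rw [h1]
      calc ∑ j, ‖(g.nm * w j : ℂ) * v j‖ = ∑ j, g.nm * w j := by
            refine sum_congr rfl fun j _ => ?_
            rw [norm_mul, hv, mul_one, norm_mul, Complex.norm_real, Complex.norm_real,
              Real.norm_of_nonneg h0.le, Real.norm_of_nonneg (hw j).le]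
        _ = g.nm := by rw [← mul_sum, hw1, mul_one]

/-- the maximum is attained -/
lemma exists_max {th : ℝ} (hth : 0 < th) {lam : ℕ → ℝ} (hl : ∀ m, |lam m| ≤ 1) (q N n : ℕ) :
    ∃ g : Ex, ∀ h : Ex, J th lam q N n h ≤ J th lam q N n g := by
  obtain ⟨S, hS⟩ : ∃ S : Finset ℕ, S = (Ioc n (n + N)).filter (fun m => q ∣ m) := ⟨_, rfl⟩
  obtain ⟨B, hB⟩ : ∃ B : ℝ, B = ar q N n (fun _ => 1) / (2 * th) := ⟨_, rfl⟩
  have hB0 : 0 ≤ B := by
    rw [hB]
    have := ar_nonneg (q := q) (N := N) (n := n) (F := fun _ => (1 : ℝ)) fun _ => zero_le_one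
    positivity
  obtain ⟨K, hK⟩ : ∃ K : Set ((Fin (2 * S.card + 1) → ℂ) × (Fin (2 * S.card + 1) → ℝ)),
    K = (Metric.closedBall 0 B) ×ˢ (Set.Icc 0 1) := ⟨_, rfl⟩
  have hKc : IsCompact K := by
    rw [hK]
    exact (isCompact_closedBall _ _).prod isCompact_Icc
  have hKne : K.Nonempty := by
    rw [hK]
    exact ⟨(0, 0), Metric.mem_closedBall_self hB0, by simp⟩
  have hcont : ContinuousOn (fun p : (Fin (2 * S.card + 1) → ℂ) × (Fin (2 * S.card + 1) → ℝ) =>
      J th lam q N n (mkEx p.1 p.2)) K := by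
    refine Continuous.continuousOn ?_
    unfold J ar
    simp only [mkEx_f, mkEx_nm]
    unfold ee
    fun_prop
  obtain ⟨p, hp, hmax⟩ := hKc.exists_isMaxOn hKne hcont
  refine ⟨mkEx p.1 p.2, fun h => ?_⟩
  have h0 : 0 ≤ J th lam q N n (mkEx p.1 p.2) := by
    have h1 := hmax (show ((0, 0) : (Fin (2 * S.card + 1) → ℂ) × (Fin (2 * S.card + 1) → ℝ)) ∈ K by
      rw [hK]
      exact ⟨Metric.mem_closedBall_self hB0, by simp⟩)
    simp only [Set.mem_ofPred_eq] at h1
    have h2 : J th lam q N n (mkEx (ι := Fin (2 * S.card + 1)) 0 0) = 0 := by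
      unfold J
      rw [mkEx_nm]
      simp only [mkEx_f]
      simp [ar]
    calc (0 : ℝ) = J th lam q N n (mkEx (ι := Fin (2 * S.card + 1)) 0 0) := h2.symm
      _ ≤ _ := h1
  rcases le_or_gt (J th lam q N n h) 0 with h1 | h1
  · exact h1.trans h0
  · obtain ⟨c, a, ha, hf, hn⟩ := few_terms S h
    have h2 := J_le th lam q N n hl h
    have h3 : h.nm ≤ B := by
      rw [hB, le_div_iff₀ (by positivity)]
      linarith
    have h4 : (c, a) ∈ K := by
      rw [hK]
      refine ⟨?_, ?_⟩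
      · rw [mem_closedBall_zero_iff, pi_norm_le_iff_of_nonneg hB0]
        intro j
        refine le_trans ?_ h3
        rw [← hn]
        exact single_le_sum (f := fun j => ‖c j‖) (fun j _ => norm_nonneg _) (mem_univ j)
      · exact ⟨fun j => (ha j).1, fun j => (ha j).2⟩
    have h5 := hmax h4
    simp only [Set.mem_ofPred_eq] at h5
    refine le_trans (le_of_eq ?_) h5
    refine J_congr (fun m hm1 hm2 => ?_) ?_
    · rw [mkEx_f, hf m (by rw [hS]; exact mem_filter.2 ⟨hm1, hm2⟩)]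
    · rw [mkEx_nm, hn]

/-- a term is added -/
noncomputable def addEx (g : Ex) (c : ℂ) (a : ℝ) : Ex :=
  ⟨g.k + 1, fun i => if i = g.k then c else g.c i, fun i => if i = g.k then a else g.a i⟩

lemma addEx_f (g : Ex) (c : ℂ) (a : ℝ) (m : ℕ) : (addEx g c a).f m = g.f m + c * ee (a * m) := by
  unfold Ex.f addEx
  simp only
  rw [sum_range_succ, if_pos rfl, if_pos rfl]
  congr 1
  refine sum_congr rfl fun i hi => ?_
  rw [if_neg (mem_range.1 hi).ne, if_neg (mem_range.1 hi).ne]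

lemma addEx_nm (g : Ex) (c : ℂ) (a : ℝ) : (addEx g c a).nm = g.nm + ‖c‖ := by
  unfold Ex.nm addEx
  simp only
  rw [sum_range_succ, if_pos rfl]
  congr 1
  refine sum_congr rfl fun i hi => ?_
  rw [if_neg (mem_range.1 hi).ne]

/-- a coefficient is multiplied -/
noncomputable def mulEx (g : Ex) (i : ℕ) (t : ℝ) : Ex :=
  ⟨g.k, fun j => if j = i then (t : ℂ) * g.c j else g.c j, g.a⟩

lemma mulEx_f {g : Ex} {i : ℕ} (hi : i < g.k) (t : ℝ) (m : ℕ) :
    (mulEx g i t).f m = g.f m + ((t : ℂ) - 1) * (g.c i * ee (g.a i * m)) := by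
  unfold Ex.f mulEx
  simp only
  rw [← Finset.add_sum_erase _ _ (mem_range.2 hi), ← Finset.add_sum_erase _ (fun j =>
    g.c j * ee (g.a j * m)) (mem_range.2 hi), if_pos rfl]
  have h : ∑ x ∈ (range g.k).erase i, (if x = i then (t : ℂ) * g.c x else g.c x) *
      ee (g.a x * m) = ∑ x ∈ (range g.k).erase i, g.c x * ee (g.a x * m) :=
    sum_congr rfl fun x hx => by rw [if_neg (ne_of_mem_erase hx)]
  rw [h]
  ring

lemma mulEx_nm {g : Ex} {i : ℕ} (hi : i < g.k) {t : ℝ} (ht : 0 ≤ t) :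
    (mulEx g i t).nm = g.nm + (t - 1) * ‖g.c i‖ := by
  unfold Ex.nm mulEx
  simp only
  rw [← Finset.add_sum_erase _ _ (mem_range.2 hi), ← Finset.add_sum_erase _ (fun j =>
    ‖g.c j‖) (mem_range.2 hi), if_pos rfl]
  have h : ∑ x ∈ (range g.k).erase i, ‖(if x = i then (t : ℂ) * g.c x else g.c x)‖ =
      ∑ x ∈ (range g.k).erase i, ‖g.c x‖ :=
    sum_congr rfl fun x hx => by rw [if_neg (ne_of_mem_erase hx)]
  rw [h, norm_mul, Complex.norm_real, Real.norm_of_nonneg ht]
  ring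

/-- the pairing of `lam - g` with one exponential -/
lemma ac_one (lam : ℕ → ℝ) (q N n : ℕ) (g : Ex) (c : ℂ) (a : ℝ) :
    ac q N n (fun m => ((lam m : ℂ) - g.f m) * (starRingEnd ℂ) (c * ee (a * m))) =
      (starRingEnd ℂ) c * rs lam q N n g a := by
  unfold rs
  rw [← ac_const_mul]
  congr 1
  funext m
  rw [map_mul, conj_ee]
  ring

/-- variation by one exponential -/
lemma J_var (th : ℝ) (lam : ℕ → ℝ) (q N n : ℕ) (g h : Ex) (c : ℂ) (a : ℝ)
    (hf : ∀ m, h.f m = g.f m + c * ee (a * m)) :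
    J th lam q N n h = J th lam q N n g + 2 * ((starRingEnd ℂ) c * rs lam q N n g a).re -
      ‖c‖ ^ 2 * ar q N n (fun _ => 1) - 2 * th * (h.nm - g.nm) := by
  rw [J_expand th lam q N n g h]
  have h1 : (fun m => ((lam m : ℂ) - g.f m) * (starRingEnd ℂ) (h.f m - g.f m)) =
      fun m => ((lam m : ℂ) - g.f m) * (starRingEnd ℂ) (c * ee (a * m)) := by
    funext m
    rw [hf, add_sub_cancel_left]
  have h2 : d2 q N n h g = ‖c‖ ^ 2 * ar q N n (fun _ => 1) := by
    unfold d2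
    rw [← ar_const_mul]
    congr 1
    funext m
    rw [hf, add_sub_cancel_left, norm_mul, norm_ee, mul_one, mul_one]
  rw [h1, h2, ac_one]

lemma eps_lim {x y B : ℝ} (h : ∀ t : ℝ, 0 < t → t ≤ 1 → x ≤ y + B * t) : x ≤ y := by
  refine le_of_forall_pos_le_add fun ε hε => ?_
  rcases le_or_gt B 0 with hB | hB
  · have := h 1 one_pos le_rfl
    linarith
  · have h1 := h (min 1 (ε / B)) (lt_min one_pos (by positivity)) (min_le_left _ _)
    have h2 : B * min 1 (ε / B) ≤ ε := by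
      calc B * min 1 (ε / B) ≤ B * (ε / B) := mul_le_mul_of_nonneg_left (min_le_right _ _) hB.le
        _ = ε := by field_simp
    linarith

/-- the conditions of Karush, Kuhn and Tucker -/
lemma kkt {th : ℝ} (hth : 0 < th) {lam : ℕ → ℝ} {q N n : ℕ} {g : Ex}
    (hmax : ∀ h : Ex, J th lam q N n h ≤ J th lam q N n g) :
    (∀ β : ℝ, ‖rs lam q N n g β‖ ≤ th) ∧ ∀ i < g.k, g.c i ≠ 0 →
      rs lam q N n g (g.a i) = th * g.c i / ‖g.c i‖ := by
  obtain ⟨M, hM⟩ : ∃ M : ℝ, M = ar q N n (fun _ => 1) := ⟨_, rfl⟩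
  have hM0 : 0 ≤ M := by
    rw [hM]
    exact ar_nonneg fun _ => zero_le_one
  have hdf : ∀ β : ℝ, ‖rs lam q N n g β‖ ≤ th := by
    intro β
    obtain ⟨r, hr⟩ : ∃ r : ℂ, r = rs lam q N n g β := ⟨_, rfl⟩
    rw [← hr]
    rcases eq_or_ne r 0 with h0 | h0
    · rw [h0, norm_zero]
      exact hth.le
    have hr0 : (0 : ℝ) < ‖r‖ := norm_pos_iff.2 h0
    refine eps_lim (B := M) fun t ht _ => ?_
    have h1 := hmax (addEx g ((t : ℂ) * (r / ‖r‖)) β)
    rw [J_var th lam q N n g _ _ β (addEx_f g _ β), addEx_nm, ← hr, ← hM] at h1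
    have h2 : ‖((t : ℂ) * (r / ‖r‖))‖ = t := by
      rw [norm_mul, norm_div, Complex.norm_real, Complex.norm_real, norm_norm,
        div_self hr0.ne', mul_one, Real.norm_of_nonneg ht.le]
    have h3 : ((starRingEnd ℂ) ((t : ℂ) * (r / ‖r‖)) * r).re = t * ‖r‖ := by
      rw [map_mul, map_div₀, Complex.conj_ofReal, Complex.conj_ofReal]
      have h4 : (t : ℂ) * ((starRingEnd ℂ) r / ‖r‖) * r = ((t * ‖r‖ : ℝ) : ℂ) := by
        have h5 : (starRingEnd ℂ) r * r = ((‖r‖ ^ 2 : ℝ) : ℂ) := by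
          rw [mul_comm, Complex.mul_conj, Complex.normSq_eq_norm_sq]
        have h6 : (‖r‖ : ℂ) ≠ 0 := by exact_mod_cast hr0.ne'
        calc (t : ℂ) * ((starRingEnd ℂ) r / ‖r‖) * r = t * ((starRingEnd ℂ) r * r) / ‖r‖ := by
              ring
          _ = _ := by
              rw [h5]
              push_cast
              field_simp
      rw [h4, Complex.ofReal_re]
    rw [h2, h3] at h1
    have h7 : t * (2 * ‖r‖) ≤ t * (2 * th + M * t) := by nlinarith
    have h8 := le_of_mul_le_mul_left h7 ht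
    have h9 : 0 ≤ M * t := by positivity
    linarith
  refine ⟨hdf, fun i hi hc => ?_⟩
  obtain ⟨r, hr⟩ : ∃ r : ℂ, r = rs lam q N n g (g.a i) := ⟨_, rfl⟩
  have hrn : ‖r‖ ≤ th := by rw [hr]; exact hdf _
  rw [← hr]
  have hc0 : (0 : ℝ) < ‖g.c i‖ := norm_pos_iff.2 hc
  have h1 : th * ‖g.c i‖ ≤ ((starRingEnd ℂ) (g.c i) * r).re := by
    refine eps_lim (B := ‖g.c i‖ ^ 2 * M) fun t ht ht1 => ?_
    have h2 := hmax (mulEx g i (1 - t))
    have hf : ∀ m, (mulEx g i (1 - t)).f m = g.f m + (-(t : ℂ) * g.c i) * ee (g.a i * m) := by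
      intro m
      rw [mulEx_f hi]
      push_cast
      ring
    rw [J_var th lam q N n g _ _ _ hf, mulEx_nm hi (by linarith), ← hr, ← hM] at h2
    have h3 : ‖(-(t : ℂ) * g.c i)‖ = t * ‖g.c i‖ := by
      rw [norm_mul, norm_neg, Complex.norm_real, Real.norm_of_nonneg ht.le]
    have h4 : ((starRingEnd ℂ) (-(t : ℂ) * g.c i) * r).re =
        -(t * ((starRingEnd ℂ) (g.c i) * r).re) := by
      have h5 : (starRingEnd ℂ) (-(t : ℂ) * g.c i) * r =
          ((-t : ℝ) : ℂ) * ((starRingEnd ℂ) (g.c i) * r) := by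
        rw [map_mul, map_neg, Complex.conj_ofReal]
        push_cast
        ring
      rw [h5, Complex.re_ofReal_mul]
      ring
    rw [h3, h4] at h2
    have h7 : t * (2 * (th * ‖g.c i‖)) ≤ t * (2 * ((starRingEnd ℂ) (g.c i) * r).re +
        ‖g.c i‖ ^ 2 * M * t) := by nlinarith
    have h8 := le_of_mul_le_mul_left h7 ht
    have h9 : 0 ≤ ‖g.c i‖ ^ 2 * M * t := by positivity
    linarith
  have h2 : ‖(starRingEnd ℂ) (g.c i) * r‖ ≤ th * ‖g.c i‖ := by
    rw [norm_mul, RCLike.norm_conj, mul_comm]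
    exact mul_le_mul_of_nonneg_right hrn hc0.le
  have h3 : (starRingEnd ℂ) (g.c i) * r = ((th * ‖g.c i‖ : ℝ) : ℂ) := by
    obtain ⟨z, hz⟩ : ∃ z : ℂ, z = (starRingEnd ℂ) (g.c i) * r := ⟨_, rfl⟩
    rw [← hz] at h1 h2 ⊢
    have h4 : ‖z‖ ^ 2 = z.re ^ 2 + z.im ^ 2 := by
      rw [← Complex.normSq_eq_norm_sq, Complex.normSq_apply]
      ring
    have h5 : 0 ≤ th * ‖g.c i‖ := by positivity
    have h6 : ‖z‖ ^ 2 ≤ (th * ‖g.c i‖) ^ 2 := pow_le_pow_left₀ (norm_nonneg _) h2 2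
    have h7 : z.im ^ 2 ≤ 0 := by nlinarith
    have h8 : z.im = 0 := by nlinarith
    have h9 : z.re ≤ th * ‖g.c i‖ := (Complex.re_le_norm z).trans h2
    apply Complex.ext
    · rw [Complex.ofReal_re]
      linarith
    · rw [Complex.ofReal_im]
      exact h8
  have h4 : (starRingEnd ℂ) (g.c i) * g.c i = ((‖g.c i‖ ^ 2 : ℝ) : ℂ) := by
    rw [mul_comm, Complex.mul_conj, Complex.normSq_eq_norm_sq]
  have h5 : (starRingEnd ℂ) (g.c i) ≠ 0 := by
    intro h
    apply hc
    have := congrArg (starRingEnd ℂ) h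
    simpa using this
  have h6 : (‖g.c i‖ : ℂ) ≠ 0 := by exact_mod_cast hc0.ne'
  apply mul_left_cancel₀ h5
  rw [h3]
  calc ((th * ‖g.c i‖ : ℝ) : ℂ) = th * (‖g.c i‖ ^ 2 : ℂ) / ‖g.c i‖ := by
        push_cast
        field_simp
    _ = th * ((starRingEnd ℂ) (g.c i) * g.c i) / ‖g.c i‖ := by
        rw [h4]
        push_cast
        rfl
    _ = _ := by ring

/-- OPD. Optimal sums with frequencies which are different modulo `1 / q` exist. -/
theorem exists_opt {th : ℝ} (hth : 0 < th) {lam : ℕ → ℝ} (hl : ∀ m, |lam m| ≤ 1) (q N n : ℕ)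
    (hq : 1 ≤ q) : ∃ g : Ex, Opt th lam q N n g ∧ Pool.Agent.H6.GS2.Dst q g := by
  classical
  have hex : ∃ k : ℕ, ∃ g : Ex, g.k = k ∧ ∀ h : Ex, J th lam q N n h ≤ J th lam q N n g := by
    obtain ⟨g, hg⟩ := exists_max hth hl q N n
    exact ⟨g.k, g, rfl, hg⟩
  obtain ⟨g, hgk, hmax⟩ := Nat.find_spec hex
  have hmin : ∀ h : Ex, h.k + 1 = g.k → J th lam q N n g ≤ J th lam q N n h → False := by
    intro h hk hJ
    refine Nat.find_min hex (m := h.k) (by omega) ⟨h, rfl, fun f => (hmax f).trans hJ⟩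
  have hnz : ∀ i < g.k, g.c i ≠ 0 := by
    intro i hi h0
    obtain ⟨h, hk, hf, hn⟩ := exists_drop hi g.c
    refine hmin h hk (le_of_eq (J_congr (fun m _ _ => ?_) ?_))
    · rw [hf]
      unfold Ex.f
      rw [← Finset.add_sum_erase _ _ (mem_range.2 hi), h0, zero_mul, zero_add]
    · rw [hn]
      unfold Ex.nm
      rw [← Finset.add_sum_erase _ _ (mem_range.2 hi), h0, norm_zero, zero_add]
  obtain ⟨hdf, hkt⟩ := kkt hth hmax
  have : Nonempty Ex := ⟨zEx⟩
  refine ⟨g, ⟨le_antisymm (J_le_En hth.le hl q N n g) (ciSup_le hmax), hnz, hdf,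
    fun i hi => hkt i hi (hnz i hi)⟩, ?_⟩
  intro i hi l hl' hil
  by_contra hnd
  have hnd0 : nd (q * (g.a i - g.a l)) = 0 := le_antisymm (not_lt.1 hnd) (nd_nonneg _)
  obtain ⟨z, hz⟩ := exists_int (q * (g.a i - g.a l))
  rw [hnd0, abs_eq_zero, sub_eq_zero] at hz
  -- the two exponentials agree on the multiples of `q`
  have hee : ∀ m : ℕ, q ∣ m → ee (g.a i * m) = ee (g.a l * m) := by
    rintro m ⟨t, rfl⟩
    have h1 : g.a i * ((q * t : ℕ) : ℝ) = g.a l * ((q * t : ℕ) : ℝ) + ((z * t : ℤ) : ℝ) := by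
      push_cast
      have : (q : ℝ) * (g.a i - g.a l) * t = z * t := by rw [hz]
      linarith
    rw [h1, ee_add, ee_int, mul_one]
  obtain ⟨h, hk, hf, hn⟩ := exists_drop hi (fun j => if j = l then g.c l + g.c i else g.c j)
  have hle : l ∈ (range g.k).erase i := mem_erase.2 ⟨fun h => hil h.symm, mem_range.2 hl'⟩
  have hsum : ∀ {M : Type} [AddCommMonoid M] (F : ℕ → M), ∑ j ∈ range g.k, F j =
      F i + (F l + ∑ j ∈ ((range g.k).erase i).erase l, F j) := by
    intro M _ F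
    rw [Finset.add_sum_erase _ _ hle, Finset.add_sum_erase _ _ (mem_range.2 hi)]
  have hfm : ∀ m ∈ Ioc n (n + N), q ∣ m → g.f m = h.f m := by
    intro m _ hm
    rw [hf, ← Finset.add_sum_erase _ _ hle, if_pos rfl]
    unfold Ex.f
    rw [hsum, hee m hm]
    have h1 : ∑ x ∈ ((range g.k).erase i).erase l, (if x = l then g.c l + g.c i else g.c x) *
        ee (g.a x * m) = ∑ x ∈ ((range g.k).erase i).erase l, g.c x * ee (g.a x * m) :=
      sum_congr rfl fun x hx => by rw [if_neg (ne_of_mem_erase hx)]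
    rw [h1]
    ring
  have hnm : h.nm ≤ g.nm := by
    rw [hn, ← Finset.add_sum_erase _ _ hle, if_pos rfl]
    unfold Ex.nm
    rw [hsum]
    have h1 : ∑ x ∈ ((range g.k).erase i).erase l, ‖(if x = l then g.c l + g.c i else g.c x)‖ =
        ∑ x ∈ ((range g.k).erase i).erase l, ‖g.c x‖ :=
      sum_congr rfl fun x hx => by rw [if_neg (ne_of_mem_erase hx)]
    rw [h1]
    have h2 := norm_add_le (g.c l) (g.c i)
    linarith
  refine hmin h hk ?_
  unfold J
  rw [ar_congr fun m h1 h2 => by rw [hfm m h1 h2]]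
  have : 0 ≤ th * (g.nm - h.nm) := mul_nonneg hth.le (by linarith)
  nlinarith

/-- OPD -/
theorem pf_OPD : Pool.Agent.H6.GS2.T_OPD :=
  fun _ _ q N n hth hl hq _ => exists_opt hth hl q N n hq

/-- OPT -/
theorem pf_OPT : T_OPT := by
  intro th lam q N n hth _ hl hq hN
  obtain ⟨g, hg, -⟩ := exists_opt hth hl q N n hq
  refine ⟨g, hg, ?_, En_nonneg hth.le hl q N n, En_le hth.le hl hq hN, ?_⟩
  · have h1 := J_le th lam q N n hl g
    rw [hg.mx] at h1
    have h2 := En_nonneg hth.le hl q N n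
    have h3 := ar_one_le (n := n) hq hN
    rw [le_div_iff₀ hth]
    nlinarith
  · rintro rfl
    exact En_le_one hth.le hl hN

end Pool.Agent.H28.GS2
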