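import Pool.Agent.H6.GS2.Bas

/-!
# Theorem (G), rows PCS and UNI: the pieces of a window and the residual of a regular window
-/

set_option autoImplicit false

open Finset Pool.Agent.H6.N4D Pool.Agent.H93 Pool.Agent.H93.GS Pool.Agent.H6.GS2

namespace Pool.Agent.H28.GS2

/-- PCS. The energies of the pieces and of the window. -/
theorem pf_PCS (hP : T_PCA) : T_PCS := by
  intro th lam q P L n g gj _ _ _ hP1 hL hg hj
  obtain ⟨-, -, h3⟩ := hP q P L n hP1 hL
  have h4 := h3 th lam g
  rw [hg.mx] at h4
  unfold gapq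
  rw [h4, ← sub_div, ← sum_sub_distrib]
  congr 1
  apply sum_congr rfl
  intro j hj'
  have h5 := J_exp (hj j (mem_range.1 hj')) g
  linarith

end Pool.Agent.H28.GS2
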