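import Pool.Agent.H6.GS2.Bas

/-!
# Theorem (G), row UNI: the residual of a regular window is uniform
-/

set_option autoImplicit false

open Finset Pool.Agent.H6.N4D Pool.Agent.H93 Pool.Agent.H93.GS Pool.Agent.H6.GS2

namespace Pool.Agent.H28.GS2

lemma card_mul_ge (q N n : ℕ) (hq : 1 ≤ q) :
    (N : ℝ) ≤ (((Ioc n (n + N)).filter (fun m => q ∣ m)).card : ℝ) * q + q := by
  have h : ((Ioc n (n + N)).filter (fun m => q ∣ m)).card = (n + N) / q - n / q := by
    have h1 := Nat.Ioc_filter_dvd_card_eq_div (n + N) q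
    have h2 := Nat.Ioc_filter_dvd_card_eq_div n q
    have h3 : (Ioc 0 (n + N)).filter (fun m => q ∣ m) =
        (Ioc 0 n).filter (fun m => q ∣ m) ∪ (Ioc n (n + N)).filter (fun m => q ∣ m) := by
      rw [← filter_union, Ioc_union_Ioc_eq_Ioc (Nat.zero_le _) (by omega)]
    have h4 : Disjoint ((Ioc 0 n).filter (fun m => q ∣ m))
        ((Ioc n (n + N)).filter (fun m => q ∣ m)) := by
      apply disjoint_filter_filter
      rw [Finset.disjoint_left]
      intro m h5 h6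
      rw [mem_Ioc] at h5 h6
      omega
    have h5 := card_union_of_disjoint h4
    rw [← h3, h1, h2] at h5
    omega
  rw [h]
  have h7 : N ≤ ((n + N) / q - n / q) * q + q := by
    have h8 : n / q * q ≤ n := Nat.div_mul_le_self _ _
    have h9 : n + N < ((n + N) / q + 1) * q := by
      have := Nat.lt_div_mul_add (a := n + N) (b := q) (by omega)
      nlinarith
    rw [Nat.sub_mul]
    have : ((n + N) / q + 1) * q = (n + N) / q * q + q := by ring
    omega
  exact_mod_cast h7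

lemma ac_one_sub (q N n : ℕ) (hq : 1 ≤ q) (hN : 1 ≤ N) :
    ‖ac q N n (fun _ => 1) - 1‖ ≤ q / N := by
  have hN' : (0 : ℝ) < N := by exact_mod_cast hN
  have h1 := card_mul_ge q N n hq
  have h2 := card_mul_le q N n hq
  have h3 : ac q N n (fun _ => 1) - 1 =
      (((((Ioc n (n + N)).filter (fun m => q ∣ m)).card : ℝ) * q / N - 1 : ℝ) : ℂ) := by
    unfold ac
    rw [sum_const, nsmul_eq_mul, mul_one]
    push_cast
    ring
  rw [h3, Complex.norm_real, Real.norm_eq_abs, abs_le]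
  constructor
  · have : (N : ℝ) / N ≤ ((((Ioc n (n + N)).filter (fun m => q ∣ m)).card : ℝ) * q + q) / N := by
      gcongr
    rw [div_self hN'.ne', add_div] at this
    linarith
  · have : (((Ioc n (n + N)).filter (fun m => q ∣ m)).card : ℝ) * q / N ≤ (N + q) / N := by
      gcongr
    rw [add_div, div_self hN'.ne'] at this
    linarith

lemma ar_sq_le (q N n : ℕ) (F : ℕ → ℝ) :
    ar q N n F ^ 2 ≤ ar q N n (fun _ => 1) * ar q N n (fun m => F m ^ 2) := by
  unfold ar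
  have h := sq_sum_le_card_mul_sum_sq (s := (Ioc n (n + N)).filter (fun m => q ∣ m)) (f := F)
  rw [sum_const, nsmul_eq_mul, mul_one]
  calc _ = (∑ m ∈ (Ioc n (n + N)).filter (fun m => q ∣ m), F m) ^ 2 * ((q : ℝ) / N) ^ 2 := by
        ring
    _ ≤ _ * ((q : ℝ) / N) ^ 2 := mul_le_mul_of_nonneg_right h (by positivity)
    _ = _ := by ring

lemma sum_norm_sub_sq (P : ℕ) (hP : 1 ≤ P) (μ : ℕ → ℂ) (ρ : ℂ)
    (h : ρ = (∑ j ∈ range P, μ j) / P) :
    ∑ j ∈ range P, ‖μ j - ρ‖ ^ 2 = ∑ j ∈ range P, ‖μ j‖ ^ 2 - P * ‖ρ‖ ^ 2 := by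
  have hP' : (P : ℂ) ≠ 0 := by exact_mod_cast (by omega : P ≠ 0)
  have h1 : ∑ j ∈ range P, μ j = P * ρ := by rw [h]; field_simp
  have h2 : ∀ j, ‖μ j - ρ‖ ^ 2 = ‖μ j‖ ^ 2 - 2 * (μ j * (starRingEnd ℂ) ρ).re + ‖ρ‖ ^ 2 := by
    intro j
    rw [← Complex.normSq_eq_norm_sq, ← Complex.normSq_eq_norm_sq, ← Complex.normSq_eq_norm_sq]
    simp only [Complex.normSq_apply, Complex.sub_re, Complex.sub_im, Complex.mul_re,
      Complex.conj_re, Complex.conj_im]
    ring
  have h3 : ∑ j ∈ range P, (μ j * (starRingEnd ℂ) ρ).re = P * ‖ρ‖ ^ 2 := by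
    rw [← Complex.re_sum, ← sum_mul, h1, mul_assoc, Complex.mul_conj,
      Complex.normSq_eq_norm_sq, ← Complex.ofReal_natCast, ← Complex.ofReal_mul,
      Complex.ofReal_re]
  simp only [h2]
  rw [sum_add_distrib, sum_sub_distrib, ← mul_sum, h3, sum_const, card_range, nsmul_eq_mul]
  ring

/-- UNI. On a regular window the residual is uniform at the near-contact frequencies. -/
theorem pf_UNI (hO : T_OPD) (hB : T_BNM) (hC : T_PCA) (hP : T_PCS) : T_UNI := by
  intro th lam q P L n κ κ' β g hth hth1 hl hq hqL hP1 hκ hκ1 hκ' hκ'2 hg hgap hρ ψ A δ hψ hδ hψδ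
  have hL : 1 ≤ L := hq.trans hqL
  have hN : 1 ≤ P * L := Nat.mul_pos hP1 hL
  have hPr : (0 : ℝ) < P := by exact_mod_cast hP1
  have hLr : (0 : ℝ) < L := by exact_mod_cast hL
  have hqLr : (q : ℝ) / L ≤ 1 := by
    rw [div_le_one hLr]; exact_mod_cast hqL
  have hqN : (q : ℝ) / ((P * L : ℕ) : ℝ) ≤ 1 := by
    rw [div_le_one (by exact_mod_cast hN)]
    exact_mod_cast hqL.trans (Nat.le_mul_of_pos_left L hP1)
  obtain ⟨hC1, hC2, -⟩ := hC q P L n hP1 hL
  choose gj hgj _ using fun j => hO th lam q L (n + j * L) hth hl hq hL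
  have hS := hP th lam q P L n g gj hth hl hq hP1 hL hg (fun j _ => hgj j)
  obtain ⟨-, -, -, -, hB5⟩ := hB th lam q (P * L) n g hth hl hq hN hg
  have hA : 0 ≤ A := (norm_nonneg _).trans (hψ (n + 1) (mem_Ioc.2 ⟨by omega, by omega⟩))
  have hρ1 : ‖rs lam q (P * L) n g β‖ ≤ 1 := (hg.df β).trans hth1
  -- the pieces
  obtain ⟨F, hF⟩ : ∃ F : ℕ → ℂ, F = fun m => ((lam m : ℂ) - g.f m) * ee (-(β * m)) := ⟨_, rfl⟩
  obtain ⟨μ, hμ⟩ : ∃ μ : ℕ → ℂ, μ = fun j => ac q L (n + j * L) F := ⟨_, rfl⟩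
  obtain ⟨ρ, hρd⟩ : ∃ ρ : ℂ, ρ = rs lam q (P * L) n g β := ⟨_, rfl⟩
  obtain ⟨e, he⟩ : ∃ e : ℕ → ℝ, e = fun j =>
    ar q L (n + j * L) (fun m => ‖g.f m - (gj j).f m‖) := ⟨_, rfl⟩
  rw [← hρd] at hρ hρ1 ⊢
  have h1 : ρ = (∑ j ∈ range P, μ j) / P := by
    rw [hρd, hμ]; unfold rs; rw [← hF]; exact hC2 F
  have hFn : ∀ m, ‖F m‖ = ‖(lam m : ℂ) - g.f m‖ := by
    intro m; rw [hF]; simp only; rw [norm_mul, norm_ee, mul_one]
  have hFar : (∑ j ∈ range P, ar q L (n + j * L) (fun m => ‖F m‖)) / P ≤ 2 := by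
    rw [← hC1 (fun m => ‖F m‖)]
    simp only [hFn]
    linarith
  -- the sizes of the coefficients of the pieces
  have h2 : ∀ j, ‖μ j‖ ≤ th + e j := by
    intro j
    have h3 : μ j = rs lam q L (n + j * L) (gj j) β +
        ac q L (n + j * L) (fun m => ((gj j).f m - g.f m) * ee (-(β * m))) := by
      rw [hμ, hF]
      unfold rs
      rw [← ac_add]
      exact ac_congr _ _ _ fun m _ _ => by ring
    rw [h3]
    refine (norm_add_le _ _).trans (add_le_add ((hgj j).df β) ?_)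
    refine (norm_ac_le _ _ _ _).trans (le_of_eq ?_)
    rw [he]
    apply ar_congr
    intro m _ _
    rw [norm_mul, norm_ee, mul_one, norm_sub_rev]
  have he0 : ∀ j, 0 ≤ e j := by
    intro j; rw [he]; exact ar_nonneg _ _ _ fun m => norm_nonneg _
  have h4 : ∀ j, e j ^ 2 ≤ 2 * d2 q L (n + j * L) g (gj j) := by
    intro j
    have h5 := ar_sq_le q L (n + j * L) (fun m => ‖g.f m - (gj j).f m‖)
    have h6 := ar_one_le q L (n + j * L) hq hL
    have h7 : 0 ≤ d2 q L (n + j * L) g (gj j) := ar_nonneg _ _ _ fun m => by positivity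
    rw [he]
    refine h5.trans ?_
    change ar q L (n + j * L) (fun _ => 1) * d2 q L (n + j * L) g (gj j) ≤ _
    exact mul_le_mul_of_nonneg_right (by linarith) h7
  have h8 : ∑ j ∈ range P, d2 q L (n + j * L) g (gj j) ≤ P * κ ^ 2 := by
    have h9 : ∑ j ∈ range P, d2 q L (n + j * L) g (gj j) ≤
        ∑ j ∈ range P, (d2 q L (n + j * L) g (gj j) + slk th lam q L (n + j * L) (gj j) g) :=
      sum_le_sum fun j _ => by linarith [slk_nonneg (hgj j) g]
    rw [hS, div_le_iff₀ hPr] at hgap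
    linarith
  have h10 : ∑ j ∈ range P, e j ^ 2 ≤ 2 * P * κ ^ 2 := by
    have h11 : ∑ j ∈ range P, e j ^ 2 ≤ ∑ j ∈ range P, 2 * d2 q L (n + j * L) g (gj j) :=
      sum_le_sum fun j _ => h4 j
    rw [← mul_sum] at h11
    linarith
  have h12 : ∑ j ∈ range P, e j ≤ 3 / 2 * P * κ := by
    have h13 := sq_sum_le_card_mul_sum_sq (s := range P) (f := e)
    rw [card_range] at h13
    have h14 : (P : ℝ) * ∑ j ∈ range P, e j ^ 2 ≤ P * (2 * P * κ ^ 2) := by gcongr
    apply le_of_sq_le_sq _ (by positivity)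
    nlinarith [sq_nonneg ((P : ℝ) * κ)]
  have h15 : ∑ j ∈ range P, ‖μ j - ρ‖ ^ 2 ≤ 5 * P * (κ + κ') := by
    rw [sum_norm_sub_sq P hP1 μ ρ h1]
    have h16 : ∑ j ∈ range P, ‖μ j‖ ^ 2 ≤ ∑ j ∈ range P, (th + e j) ^ 2 :=
      sum_le_sum fun j _ => by
        have := norm_nonneg (μ j)
        have := h2 j
        gcongr
    have h17 : ∑ j ∈ range P, (th + e j) ^ 2 = P * th ^ 2 + 2 * th * ∑ j ∈ range P, e j +
        ∑ j ∈ range P, e j ^ 2 := by
      have : ∀ j, (th + e j) ^ 2 = th ^ 2 + 2 * th * e j + e j ^ 2 := fun j => by ring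
      simp only [this]
      rw [sum_add_distrib, sum_add_distrib, sum_const, card_range, nsmul_eq_mul, ← mul_sum]
    have h18 : (th - κ') ^ 2 ≤ ‖ρ‖ ^ 2 := by
      have : 0 ≤ th - κ' := by linarith
      gcongr
    have h19 : (P : ℝ) * (th - κ') ^ 2 ≤ P * ‖ρ‖ ^ 2 := by gcongr
    have h20 : 2 * th * ∑ j ∈ range P, e j ≤ 2 * 1 * (3 / 2 * P * κ) := by
      have : 0 ≤ ∑ j ∈ range P, e j := sum_nonneg fun j _ => he0 j
      gcongr
    have h21 : 2 * P * κ ^ 2 ≤ 2 * P * κ := by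
      have : κ ^ 2 ≤ κ := by nlinarith
      have h0 : (0 : ℝ) ≤ 2 * P := by positivity
      exact mul_le_mul_of_nonneg_left this h0
    have h22 : (P : ℝ) * th ^ 2 - P * (th - κ') ^ 2 ≤ 2 * P * κ' := by
      have h0 : th ^ 2 - (th - κ') ^ 2 ≤ 2 * κ' := by nlinarith
      nlinarith
    have h23 : 0 ≤ (P : ℝ) * κ' := by positivity
    linarith
  have h24 : ∑ j ∈ range P, ‖μ j - ρ‖ ≤ P * (3 * √(κ + κ')) := by
    have h25 := sq_sum_le_card_mul_sum_sq (s := range P) (f := fun j => ‖μ j - ρ‖)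
    rw [card_range] at h25
    have h26 : (P : ℝ) * ∑ j ∈ range P, ‖μ j - ρ‖ ^ 2 ≤ P * (5 * P * (κ + κ')) := by gcongr
    apply le_of_sq_le_sq _ (by positivity)
    have h27 : (P * (3 * √(κ + κ'))) ^ 2 = (P : ℝ) ^ 2 * (9 * (κ + κ')) := by
      rw [mul_pow, mul_pow, Real.sq_sqrt (by linarith)]; ring
    rw [h27]
    have h28 : 0 ≤ (P : ℝ) ^ 2 * (κ + κ') := by positivity
    nlinarith
  -- the pieces with the weights
  have hpt : ∀ j < P, n + j * L + 1 ∈ Ioc (n + j * L) (n + j * L + L) := fun j _ =>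
    mem_Ioc.2 ⟨by omega, by omega⟩
  have hsub : ∀ j < P, ∀ m ∈ Ioc (n + j * L) (n + j * L + L), m ∈ Ioc n (n + P * L) := by
    intro j hj m hm
    rw [mem_Ioc] at hm ⊢
    have h29 : (j + 1) * L ≤ P * L := Nat.mul_le_mul_right L hj
    have h30 : (j + 1) * L = j * L + L := by ring
    constructor <;> omega
  have hψj : ∀ j < P, ‖ψ (n + j * L + 1)‖ ≤ A := fun j hj => hψ _ (hsub j hj _ (hpt j hj))
  have h31 : ∀ j < P, ‖ac q L (n + j * L) (fun m => F m * ψ m) - ψ (n + j * L + 1) * μ j‖ ≤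
      δ * ar q L (n + j * L) (fun m => ‖F m‖) := by
    intro j hj
    rw [hμ]
    simp only
    rw [← ac_mul, ← ac_sub]
    refine (norm_ac_le _ _ _ _).trans ?_
    rw [← ar_mul]
    apply ar_mono
    intro m hm _
    have h32 : F m * ψ m - ψ (n + j * L + 1) * F m = (ψ m - ψ (n + j * L + 1)) * F m := by ring
    rw [h32, norm_mul]
    exact mul_le_mul_of_nonneg_right (hψδ j hj m hm _ (hpt j hj)) (norm_nonneg _)
  have h33 : ∀ j < P, ‖ac q L (n + j * L) ψ - ψ (n + j * L + 1)‖ ≤ 2 * δ + A * (q / L) := by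
    intro j hj
    have h34 : ac q L (n + j * L) ψ - ψ (n + j * L + 1) =
        ac q L (n + j * L) (fun m => ψ m - ψ (n + j * L + 1)) +
          ψ (n + j * L + 1) * (ac q L (n + j * L) (fun _ => 1) - 1) := by
      have h35 : ac q L (n + j * L) (fun m => ψ m - ψ (n + j * L + 1)) =
          ac q L (n + j * L) ψ - ψ (n + j * L + 1) * ac q L (n + j * L) (fun _ => 1) := by
        rw [← ac_mul, ← ac_sub]
        exact ac_congr _ _ _ fun m _ _ => by ring
      rw [h35]; ring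
    rw [h34]
    refine (norm_add_le _ _).trans (add_le_add ?_ ?_)
    · refine (norm_ac_le _ _ _ _).trans ?_
      have h36 : ar q L (n + j * L) (fun m => ‖ψ m - ψ (n + j * L + 1)‖) ≤
          ar q L (n + j * L) (fun _ => δ * 1) :=
        ar_mono _ _ _ fun m hm _ => by
          rw [mul_one]; exact hψδ j hj m hm _ (hpt j hj)
      rw [ar_mul] at h36
      have h37 := ar_one_le q L (n + j * L) hq hL
      have h38 : δ * ar q L (n + j * L) (fun _ => 1) ≤ δ * 2 := by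
        apply mul_le_mul_of_nonneg_left _ hδ; linarith
      linarith
    · rw [norm_mul]
      exact mul_le_mul (hψj j hj) (ac_one_sub q L (n + j * L) hq hL) (norm_nonneg _) hA
  -- the sum
  have h40 : ac q (P * L) n (fun m => F m * ψ m) - ρ * ac q (P * L) n ψ =
      (∑ j ∈ range P, ((ac q L (n + j * L) (fun m => F m * ψ m) - ψ (n + j * L + 1) * μ j) +
        ψ (n + j * L + 1) * (μ j - ρ) -
          ρ * (ac q L (n + j * L) ψ - ψ (n + j * L + 1)))) / P := by
    rw [hC2 (fun m => F m * ψ m), hC2 ψ, ← mul_div_assoc, ← sub_div, mul_sum, ← sum_sub_distrib]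
    congr 1
    exact sum_congr rfl fun j _ => by ring
  have h41 : ∀ j ∈ range P, ‖(ac q L (n + j * L) (fun m => F m * ψ m) -
      ψ (n + j * L + 1) * μ j) + ψ (n + j * L + 1) * (μ j - ρ) -
          ρ * (ac q L (n + j * L) ψ - ψ (n + j * L + 1))‖ ≤
      δ * ar q L (n + j * L) (fun m => ‖F m‖) + A * ‖μ j - ρ‖ + (2 * δ + A * (q / L)) := by
    intro j hj
    have hj' := mem_range.1 hj
    refine (norm_sub_le _ _).trans (add_le_add ((norm_add_le _ _).trans
      (add_le_add (h31 j hj') ?_)) ?_)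
    · rw [norm_mul]
      exact mul_le_mul_of_nonneg_right (hψj j hj') (norm_nonneg _)
    · rw [norm_mul]
      calc ‖ρ‖ * ‖ac q L (n + j * L) ψ - ψ (n + j * L + 1)‖ ≤
          1 * (2 * δ + A * (q / L)) :=
            mul_le_mul hρ1 (h33 j hj') (norm_nonneg _) zero_le_one
        _ = _ := one_mul _
  have h42 : (fun m => ((lam m : ℂ) - g.f m) * ee (-(β * m)) * ψ m) = fun m => F m * ψ m := by
    rw [hF]
  rw [h42, h40, norm_div, Complex.norm_natCast, div_le_iff₀ hPr]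
  refine (norm_sum_le _ _).trans ((sum_le_sum h41).trans ?_)
  rw [sum_add_distrib, sum_add_distrib, ← mul_sum, ← mul_sum, sum_const, card_range,
    nsmul_eq_mul]
  rw [div_le_iff₀ hPr] at hFar
  have h43 := mul_le_mul_of_nonneg_left hFar hδ
  have h44 := mul_le_mul_of_nonneg_left h24 hA
  have h45 : 0 ≤ δ * P := by positivity
  have h46 : (A * (3 * √(κ + κ') + q / L) + 6 * δ) * P =
      A * (P * (3 * √(κ + κ'))) + P * (A * (q / L)) + 6 * (δ * P) := by ring
  rw [h46]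
  linarith

end Pool.Agent.H28.GS2
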