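import Pool.Agent.H93.GS.Targets

/-!
# Theorem (G), section 2 (MP_c59857_nt): the functional `J` and its variations
-/

set_option autoImplicit false

namespace Pool.Agent.H28.GS2

open Finset Pool.Agent.H6.N4D Pool.Agent.H93.GS

/-! ### the means -/

lemma ar_add (q N n : ℕ) (F G : ℕ → ℝ) :
    ar q N n (fun m => F m + G m) = ar q N n F + ar q N n G := by
  unfold ar
  rw [sum_add_distrib]
  ring

lemma ar_sub (q N n : ℕ) (F G : ℕ → ℝ) :
    ar q N n (fun m => F m - G m) = ar q N n F - ar q N n G := by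
  unfold ar
  rw [sum_sub_distrib]
  ring

lemma ar_const_mul (q N n : ℕ) (c : ℝ) (F : ℕ → ℝ) :
    ar q N n (fun m => c * F m) = c * ar q N n F := by
  unfold ar
  rw [← mul_sum]
  ring

lemma ar_congr {q N n : ℕ} {F G : ℕ → ℝ} (h : ∀ m ∈ Ioc n (n + N), q ∣ m → F m = G m) :
    ar q N n F = ar q N n G := by
  unfold ar
  rw [sum_congr rfl fun m hm => h m (mem_filter.1 hm).1 (mem_filter.1 hm).2]

lemma ar_mono {q N n : ℕ} {F G : ℕ → ℝ} (h : ∀ m, F m ≤ G m) : ar q N n F ≤ ar q N n G := by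
  unfold ar
  gcongr with m _
  exact h m

lemma ar_nonneg {q N n : ℕ} {F : ℕ → ℝ} (h : ∀ m, 0 ≤ F m) : 0 ≤ ar q N n F := by
  unfold ar
  have : 0 ≤ ∑ m ∈ (Ioc n (n + N)).filter (fun m => q ∣ m), F m := sum_nonneg fun m _ => h m
  positivity

lemma ac_add (q N n : ℕ) (F G : ℕ → ℂ) :
    ac q N n (fun m => F m + G m) = ac q N n F + ac q N n G := by
  unfold ac
  rw [sum_add_distrib]
  ring

lemma ac_const_mul (q N n : ℕ) (c : ℂ) (F : ℕ → ℂ) :
    ac q N n (fun m => c * F m) = c * ac q N n F := by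
  unfold ac
  rw [← mul_sum]
  ring

lemma ac_sum (q N n : ℕ) {ι : Type} (s : Finset ι) (F : ι → ℕ → ℂ) :
    ac q N n (fun m => ∑ i ∈ s, F i m) = ∑ i ∈ s, ac q N n (F i) := by
  unfold ac
  rw [sum_comm, sum_mul, sum_div]

lemma ac_re (q N n : ℕ) (F : ℕ → ℂ) : (ac q N n F).re = ar q N n (fun m => (F m).re) := by
  unfold ac ar
  have h : (∑ m ∈ (Ioc n (n + N)).filter (fun m => q ∣ m), F m) * (q : ℂ) / (N : ℂ) =
      (∑ m ∈ (Ioc n (n + N)).filter (fun m => q ∣ m), F m) * (((q : ℝ) / N : ℝ) : ℂ) := by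
    push_cast
    ring
  rw [h, Complex.re_mul_ofReal, Complex.re_sum]
  ring

/-- the number of the multiples of `q` in the window -/
lemma card_mult (q N n : ℕ) (hq : 1 ≤ q) :
    (((Ioc n (n + N)).filter (fun m => q ∣ m)).card : ℝ) * q ≤ N + q := by
  have h1 : ((Ioc 0 (n + N)).filter (fun m => q ∣ m)).card =
      ((Ioc 0 n).filter (fun m => q ∣ m)).card +
        ((Ioc n (n + N)).filter (fun m => q ∣ m)).card := by
    rw [← Finset.card_union_of_disjoint]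
    · congr 1
      rw [← Finset.filter_union]
      congr 1
      rw [Finset.Ioc_union_Ioc_eq_Ioc (Nat.zero_le n) (Nat.le_add_right n N)]
    · rw [Finset.disjoint_left]
      intro m h1 h2
      have h3 := (Finset.mem_Ioc.1 (Finset.mem_filter.1 h1).1).2
      have h4 := (Finset.mem_Ioc.1 (Finset.mem_filter.1 h2).1).1
      omega
  rw [Nat.Ioc_filter_dvd_card_eq_div, Nat.Ioc_filter_dvd_card_eq_div] at h1
  have h2 : q * ((n + N) / q) ≤ n + N := Nat.mul_div_le _ _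
  have h3 : n < q * (n / q + 1) := by
    have := Nat.lt_mul_div_succ n (show 0 < q by omega)
    simpa using this
  have h4 : q * ((n + N) / q) = q * (n / q) +
      q * ((Ioc n (n + N)).filter (fun m => q ∣ m)).card := by
    rw [h1, Nat.mul_add]
  have h5 : q * (n / q + 1) = q * (n / q) + q := by ring
  have h6 : ((Ioc n (n + N)).filter (fun m => q ∣ m)).card * q ≤ N + q := by
    rw [mul_comm]
    omega
  exact_mod_cast h6

lemma ar_one_le {q N n : ℕ} (hq : 1 ≤ q) (hN : q ≤ N) : ar q N n (fun _ => 1) ≤ 2 := by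
  unfold ar
  rw [sum_const, nsmul_eq_mul, mul_one]
  have h1 := card_mult q N n hq
  have hN0 : (0 : ℝ) < N := by
    have : 0 < N := by omega
    exact_mod_cast this
  rw [div_le_iff₀ hN0]
  have h2 : (q : ℝ) ≤ N := by exact_mod_cast hN
  linarith

lemma ar_one_eq {N n : ℕ} (hN : 1 ≤ N) : ar 1 N n (fun _ => 1) = 1 := by
  unfold ar
  have hN0 : (N : ℝ) ≠ 0 := by
    have : 0 < N := by omega
    positivity
  have h : (Ioc n (n + N)).filter (fun m => 1 ∣ m) = Ioc n (n + N) :=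
    filter_true_of_mem fun m _ => one_dvd m
  rw [h, sum_const, Nat.card_Ioc, Nat.add_sub_cancel_left, nsmul_eq_mul, mul_one,
    Nat.cast_one, mul_one, div_self hN0]

/-! ### the functional -/

lemma conj_ee (x : ℝ) : (starRingEnd ℂ) (ee x) = ee (-x) := by
  unfold ee
  rw [← Complex.exp_conj, map_mul, Complex.conj_ofReal, Complex.conj_I]
  congr 1
  push_cast
  ring

/-- expansion of `J` around `g` -/
lemma J_expand (th : ℝ) (lam : ℕ → ℝ) (q N n : ℕ) (g h : Ex) :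
    J th lam q N n h = J th lam q N n g +
      2 * (ac q N n (fun m => ((lam m : ℂ) - g.f m) * (starRingEnd ℂ) (h.f m - g.f m))).re -
      d2 q N n h g - 2 * th * (h.nm - g.nm) := by
  unfold J d2
  rw [ac_re, ← ar_const_mul]
  have h1 : ar q N n (fun m => 2 * lam m * (h.f m).re - ‖h.f m‖ ^ 2) =
      ar q N n (fun m => 2 * lam m * (g.f m).re - ‖g.f m‖ ^ 2) +
      ar q N n (fun m => 2 * (((lam m : ℂ) - g.f m) *
        (starRingEnd ℂ) (h.f m - g.f m)).re) -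
      ar q N n (fun m => ‖h.f m - g.f m‖ ^ 2) := by
    rw [← ar_add, ← ar_sub]
    congr 1
    funext m
    rw [← Complex.normSq_eq_norm_sq, ← Complex.normSq_eq_norm_sq, ← Complex.normSq_eq_norm_sq,
      Complex.normSq_apply, Complex.normSq_apply, Complex.normSq_apply]
    simp only [Complex.mul_re, Complex.sub_re, Complex.sub_im, Complex.conj_re, Complex.conj_im,
      Complex.ofReal_re, Complex.ofReal_im]
    ring
  rw [h1]
  ring

lemma J_le (th : ℝ) (lam : ℕ → ℝ) (q N n : ℕ) (hl : ∀ m, |lam m| ≤ 1) (g : Ex) :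
    J th lam q N n g ≤ ar q N n (fun _ => 1) - 2 * th * g.nm := by
  unfold J
  refine sub_le_sub_right (ar_mono fun m => ?_) _
  have h1 : ‖g.f m‖ ^ 2 = (g.f m).re ^ 2 + (g.f m).im ^ 2 := by
    rw [← Complex.normSq_eq_norm_sq, Complex.normSq_apply]
    ring
  have h2 : lam m ^ 2 ≤ 1 := by
    rw [← sq_abs]
    have := hl m
    nlinarith [abs_nonneg (lam m)]
  rw [h1]
  nlinarith [sq_nonneg (lam m - (g.f m).re), sq_nonneg (g.f m).im]

lemma nm_nonneg (g : Ex) : 0 ≤ g.nm := sum_nonneg fun _ _ => norm_nonneg _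

/-- the empty sum -/
def zEx : Ex := ⟨0, fun _ => 0, fun _ => 0⟩

lemma zEx_f (m : ℕ) : zEx.f m = 0 := by simp [zEx, Ex.f]

lemma zEx_nm : zEx.nm = 0 := by simp [zEx, Ex.nm]

lemma J_zEx (th : ℝ) (lam : ℕ → ℝ) (q N n : ℕ) : J th lam q N n zEx = 0 := by
  unfold J
  rw [zEx_nm]
  simp [zEx_f, ar]

lemma bdd_J {th : ℝ} (hth : 0 ≤ th) {lam : ℕ → ℝ} (hl : ∀ m, |lam m| ≤ 1) (q N n : ℕ) :
    BddAbove (Set.range fun g : Ex => J th lam q N n g) := by
  refine ⟨ar q N n (fun _ => 1), ?_⟩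
  rintro _ ⟨g, rfl⟩
  refine (J_le th lam q N n hl g).trans ?_
  have := nm_nonneg g
  nlinarith

lemma J_le_En {th : ℝ} (hth : 0 ≤ th) {lam : ℕ → ℝ} (hl : ∀ m, |lam m| ≤ 1) (q N n : ℕ)
    (g : Ex) : J th lam q N n g ≤ En th lam q N n := le_ciSup (bdd_J hth hl q N n) g

lemma En_nonneg {th : ℝ} (hth : 0 ≤ th) {lam : ℕ → ℝ} (hl : ∀ m, |lam m| ≤ 1) (q N n : ℕ) :
    0 ≤ En th lam q N n := by
  rw [← J_zEx th lam q N n]
  exact J_le_En hth hl q N n zEx

lemma En_le {th : ℝ} (hth : 0 ≤ th) {lam : ℕ → ℝ} (hl : ∀ m, |lam m| ≤ 1) {q N n : ℕ}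
    (hq : 1 ≤ q) (hN : q ≤ N) : En th lam q N n ≤ 2 := by
  have : Nonempty Ex := ⟨zEx⟩
  refine ciSup_le fun g => (J_le th lam q N n hl g).trans ?_
  have h1 := nm_nonneg g
  have h2 := ar_one_le (n := n) hq hN
  nlinarith

lemma En_le_one {th : ℝ} (hth : 0 ≤ th) {lam : ℕ → ℝ} (hl : ∀ m, |lam m| ≤ 1) {N n : ℕ}
    (hN : 1 ≤ N) : En th lam 1 N n ≤ 1 := by
  have : Nonempty Ex := ⟨zEx⟩
  refine ciSup_le fun g => (J_le th lam 1 N n hl g).trans ?_
  have h1 := nm_nonneg g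
  rw [ar_one_eq hN]
  nlinarith

/-! ### sums over finite types -/

/-- a sum of exponentials over a finite type -/
noncomputable def mkEx {ι : Type} [Fintype ι] (c : ι → ℂ) (a : ι → ℝ) : Ex :=
  ⟨Fintype.card ι, fun i => if h : i < Fintype.card ι then c ((Fintype.equivFin ι).symm ⟨i, h⟩)
    else 0, fun i => if h : i < Fintype.card ι then a ((Fintype.equivFin ι).symm ⟨i, h⟩) else 0⟩

lemma mkEx_sum {ι : Type} [Fintype ι] {M : Type} [AddCommMonoid M] (c : ι → ℂ) (a : ι → ℝ)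
    (F : ℂ → ℝ → M) : ∑ i ∈ range (mkEx c a).k, F ((mkEx c a).c i) ((mkEx c a).a i) =
      ∑ j, F (c j) (a j) := by
  unfold mkEx
  simp only
  rw [Finset.sum_range, ← (Fintype.equivFin ι).symm.sum_comp]
  refine sum_congr rfl fun i _ => ?_
  simp only [Fin.is_lt, dite_true, Fin.eta]

lemma mkEx_f {ι : Type} [Fintype ι] (c : ι → ℂ) (a : ι → ℝ) (m : ℕ) :
    (mkEx c a).f m = ∑ j, c j * ee (a j * m) :=
  mkEx_sum c a fun x y => x * ee (y * m)

lemma mkEx_nm {ι : Type} [Fintype ι] (c : ι → ℂ) (a : ι → ℝ) : (mkEx c a).nm = ∑ j, ‖c j‖ :=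
  mkEx_sum c a fun x _ => ‖x‖

lemma mkEx_mem {ι : Type} [Fintype ι] (c : ι → ℂ) (a : ι → ℝ) {i : ℕ} (hi : i < (mkEx c a).k) :
    ∃ j, (mkEx c a).c i = c j ∧ (mkEx c a).a i = a j := by
  unfold mkEx at hi ⊢
  simp only at hi ⊢
  exact ⟨(Fintype.equivFin ι).symm ⟨i, hi⟩, by rw [dif_pos hi], by rw [dif_pos hi]⟩

/-- `J` depends only on the values on the multiples and on the norm -/
lemma J_congr {th : ℝ} {lam : ℕ → ℝ} {q N n : ℕ} {g h : Ex}
    (hf : ∀ m ∈ Ioc n (n + N), q ∣ m → g.f m = h.f m) (hn : g.nm = h.nm) :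
    J th lam q N n g = J th lam q N n h := by
  unfold J
  rw [hn, ar_congr fun m h1 h2 => by rw [hf m h1 h2]]

/-- leaving out one term -/
lemma exists_drop {g : Ex} {i : ℕ} (hi : i < g.k) (c' : ℕ → ℂ) :
    ∃ h : Ex, h.k + 1 = g.k ∧
      (∀ m, h.f m = ∑ j ∈ (range g.k).erase i, c' j * ee (g.a j * m)) ∧
      h.nm = ∑ j ∈ (range g.k).erase i, ‖c' j‖ := by
  classical
  have key : ∀ F : ℕ → ℂ, ∑ j : {j // j ∈ (range g.k).erase i}, F j = ∑ j ∈ (range g.k).erase i, F j :=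
    fun F => Finset.sum_coe_sort _ F
  have key' : ∀ F : ℕ → ℝ, ∑ j : {j // j ∈ (range g.k).erase i}, F j = ∑ j ∈ (range g.k).erase i, F j :=
    fun F => Finset.sum_coe_sort _ F
  refine ⟨mkEx (ι := {j // j ∈ (range g.k).erase i}) (fun j => c' j) (fun j => g.a j), ?_,
    fun m => ?_, ?_⟩
  · unfold mkEx
    simp only
    rw [Fintype.card_coe, card_erase_of_mem (mem_range.2 hi), card_range]
    omega
  · rw [mkEx_f]
    exact key fun j => c' j * ee (g.a j * m)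
  · rw [mkEx_nm]
    exact key' fun j => ‖c' j‖

end Pool.Agent.H28.GS2
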